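import Mathlib

/-!
The Alexander polynomial of a closed braid, through Artin's presentation of the link group and
Fox's free differential calculus; trapezoidal polynomials.
-/

namespace Pool.Agent.P.MP_95c900_gt

open Polynomial LaurentPolynomial FreeGroup

/-- Artin's action on the free group: `(i, true)` is the generator `σ i`, sending `x i` to
`x i * x (i+1) * (x i)⁻¹` and `x (i+1)` to `x i`; `(i, false)` is its inverse. -/
def artin {n : ℕ} (s : Fin n × Bool) : FreeGroup (Fin (n + 1)) →* FreeGroup (Fin (n + 1)) :=
  FreeGroup.lift fun j =>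
    if j = s.1.castSucc then
      (if s.2 then of s.1.castSucc * of s.1.succ * (of s.1.castSucc)⁻¹ else of s.1.succ)
    else if j = s.1.succ then
      (if s.2 then of s.1.castSucc else (of s.1.succ)⁻¹ * of s.1.castSucc * of s.1.succ)
    else of j

/-- The action of a braid word on `n + 1` strands. -/
def braidAct {n : ℕ} : List (Fin n × Bool) → (FreeGroup (Fin (n + 1)) →* FreeGroup (Fin (n + 1)))
  | [] => MonoidHom.id _
  | s :: w => (braidAct w).comp (artin s)

/-- The Fox derivative of a word with respect to `x j`, every generator being sent to `t`. -/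
noncomputable def foxList {α : Type} [DecidableEq α] (j : α) : List (α × Bool) → ℤ[T;T⁻¹]
  | [] => 0
  | (i, true) :: l => (if i = j then 1 else 0) + T 1 * foxList j l
  | (i, false) :: l => T (-1) * (foxList j l - if i = j then 1 else 0)

/-- The Fox derivative of an element of the free group. -/
noncomputable def fox {α : Type} [DecidableEq α] (j : α) (a : FreeGroup α) : ℤ[T;T⁻¹] :=
  foxList j a.toWord

/-- The Alexander matrix of the presentation `⟨x i | β (x i) * (x i)⁻¹⟩` of the group of the
closure of the braid `β`. -/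
noncomputable def alexMatrix {n : ℕ} (β : List (Fin n × Bool)) :
    Matrix (Fin (n + 1)) (Fin (n + 1)) ℤ[T;T⁻¹] :=
  fun i j => fox j (braidAct β (of i) * (of i)⁻¹)

/-- `Δ` is the normalised Alexander polynomial of the closure of `β`: it generates the first
elementary ideal (spanned by the `n × n` minors of the Alexander matrix), has nonzero constant term
and positive leading coefficient. -/
def IsAlexander {n : ℕ} (β : List (Fin n × Bool)) (Δ : ℤ[X]) : Prop :=
  Ideal.span {d | ∃ i j : Fin (n + 1),
      d = ((alexMatrix β).submatrix i.succAbove j.succAbove).det} = Ideal.span {toLaurent Δ} ∧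
    Δ.coeff 0 ≠ 0 ∧ 0 < Δ.leadingCoeff

/-- `a j` in `Δ = ∑ j, (-1) ^ j * a j * t ^ (d - j)`, `d` the degree. -/
noncomputable def absCoeff (Δ : ℤ[X]) (j : ℕ) : ℤ := (-1) ^ j * Δ.coeff (Δ.natDegree - j)

/-- The `a j` are positive, increase strictly up to `a k`, are constant from `a k` to `a (d - k)`,
and then decrease strictly. -/
def Trapezoidal (Δ : ℤ[X]) : Prop :=
  (∀ j ≤ Δ.natDegree, 0 < absCoeff Δ j) ∧
    ∃ k, 2 * k ≤ Δ.natDegree ∧ (∀ j < k, absCoeff Δ j < absCoeff Δ (j + 1)) ∧
      (∀ j, k ≤ j → j ≤ Δ.natDegree - k → absCoeff Δ j = absCoeff Δ k) ∧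
      ∀ j, Δ.natDegree - k ≤ j → j < Δ.natDegree → absCoeff Δ (j + 1) < absCoeff Δ j

end Pool.Agent.P.MP_95c900_gt
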