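import Pool.Agent.P.MP_95c900_gt.Trap

/-! Traces of words in the two reduced Burau matrices. -/

namespace Pool.Agent.P.MP_95c900_gt

open Polynomial List

/-- matrices over integer polynomials -/
abbrev Mat : Type := Matrix (Fin 2) (Fin 2) ℤ[X]

/-- the two letters -/
noncomputable def L (a : Bool) : Mat := if a then !![X, 0; 1, 1] else !![X, X; 0, 1]

/-- the matrix of a word -/
noncomputable def M (w : List Bool) : Mat := (w.map L).prod

/-- the commutator of the letters -/
noncomputable def Cm (a : Bool) : Mat := L a * L (!a) - L (!a) * L a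

/-- the cyclotomic factor -/
noncomputable def δ : ℤ[X] := X ^ 2 - X + 1

/-- the twisted trace -/
noncomputable def τ (a : Bool) (w : List Bool) : ℤ[X] := (M w * Cm a).trace

lemma M_nil : M [] = 1 := rfl
lemma M_cons (a : Bool) (w : List Bool) : M (a :: w) = L a * M w := by simp [M]
lemma M_append (v w : List Bool) : M (v ++ w) = M v * M w := by simp [M]
lemma M_single (a : Bool) : M [a] = L a := by simp [M]
lemma M_replicate (k : ℕ) (a : Bool) : M (replicate k a) = L a ^ k := by simp [M]

lemma Xδ_ne : X * δ ≠ 0 := by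
  apply mul_ne_zero X_ne_zero
  intro h
  simpa [δ] using congrArg (eval 0) h

lemma Cm_not (a : Bool) : Cm (!a) = -Cm a := by simp [Cm]

lemma L_sq (a : Bool) : L a * L a = (1 + X : ℤ[X]) • L a - (X : ℤ[X]) • (1 : Mat) := by
  ext i j : 1
  cases a <;> fin_cases i <;> fin_cases j <;> simp [L, Matrix.mul_apply, Fin.sum_univ_two] <;> ring

lemma L_Cm_L (a c : Bool) : L c * Cm a * L c = (X : ℤ[X]) • Cm a := by
  ext i j : 1
  cases a <;> cases c <;> fin_cases i <;> fin_cases j <;>
    simp [L, Cm, Matrix.mul_apply, Fin.sum_univ_two] <;> ring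

lemma L_Cm_add (a c : Bool) : L c * Cm a + Cm a * L c = (1 + X : ℤ[X]) • Cm a := by
  ext i j : 1
  cases a <;> cases c <;> fin_cases i <;> fin_cases j <;> simp [L, Cm] <;> ring

lemma L_move (a : Bool) : L a * L (!a) * Cm a * L a = L (!a) * Cm a * (L a * L (!a)) := by
  ext i j : 1
  cases a <;> fin_cases i <;> fin_cases j <;>
    simp [L, Cm, Matrix.mul_apply, Fin.sum_univ_two] <;> ring

lemma L_pow (a : Bool) (k : ℕ) : L a ^ (k + 1) = g (k + 1) • L a - (X * g k) • (1 : Mat) := by
  induction k with
  | zero => simp [g_zero, g_one]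
  | succ k ih =>
    rw [pow_succ, ih, sub_mul, smul_mul_assoc, smul_mul_assoc, one_mul, L_sq, g_rec]
    module

lemma τ_nil (a : Bool) : τ a [] = 0 := by
  cases a <;> simp [τ, M_nil, Cm, L, Matrix.trace_fin_two]

lemma τ_single (a c : Bool) : τ a [c] = 0 := by
  cases a <;> cases c <;> simp [τ, M_single, Cm, L, Matrix.trace_fin_two] <;> ring

lemma τ_pair (a : Bool) : τ a [a, !a] = X * δ := by
  cases a <;> simp [τ, M, Cm, L, δ, Matrix.trace_fin_two] <;> ring

lemma τ_not (a : Bool) (w : List Bool) : τ (!a) w = -τ a w := by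
  simp [τ, Cm_not]

lemma τ_strip (a c : Bool) (w : List Bool) : τ a (c :: (w ++ [c])) = X * τ a w := by
  rw [τ, M_cons, M_append, M_single, mul_assoc, Matrix.trace_mul_comm, mul_assoc (M w),
    mul_assoc (M w), L_Cm_L, mul_smul_comm, Matrix.trace_smul, τ, smul_eq_mul]

lemma τ_both (a c : Bool) (w : List Bool) : τ a (w ++ [c]) + τ a (c :: w) = (1 + X) * τ a w := by
  rw [τ, τ, M_cons, M_append, M_single, mul_assoc (L c), Matrix.trace_mul_comm (L c), mul_assoc,
    mul_assoc, ← Matrix.trace_add, ← mul_add, L_Cm_add, mul_smul_comm, Matrix.trace_smul, τ,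
    smul_eq_mul]

lemma τ_move (a : Bool) (v : List Bool) :
    τ a (a :: ((v ++ [a]) ++ [!a])) = τ a (a :: (((!a) :: v) ++ [!a])) := by
  have e1 : M (a :: ((v ++ [a]) ++ [!a])) * Cm a = L a * (M v * (L a * L (!a) * Cm a)) := by
    simp only [M_cons, M_append, M_nil, mul_one, mul_assoc]
  have e2 : M (a :: (((!a) :: v) ++ [!a])) * Cm a = (L a * L (!a)) * (M v * (L (!a) * Cm a)) := by
    simp only [M_cons, M_append, M_nil, mul_one, mul_assoc]
  rw [τ, τ, e1, e2, Matrix.trace_mul_comm, Matrix.trace_mul_comm (L a * L (!a)), mul_assoc,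
    L_move, mul_assoc (M v)]

lemma τ_pow (a c : Bool) (v : List Bool) (k : ℕ) :
    τ a (v ++ replicate (k + 1) c) = g (k + 1) * τ a (v ++ [c]) - X * g k * τ a v := by
  simp only [τ, M_append, M_replicate, M_single, L_pow, mul_sub, sub_mul, mul_smul_comm,
    smul_mul_assoc, mul_one, Matrix.trace_sub, Matrix.trace_smul, smul_eq_mul]

lemma exists_split (a : Bool) (w : List Bool) :
    (∃ k, w = replicate k (!a)) ∨ ∃ v k, w = v ++ [a] ++ replicate k (!a) := by
  induction w using List.reverseRecOn with
  | nil => exact Or.inl ⟨0, rfl⟩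
  | append_singleton w c ih =>
    by_cases h : c = a
    · exact Or.inr ⟨w, 0, by simp [h]⟩
    · obtain rfl : c = !a := by cases a <;> cases c <;> simp_all
      rcases ih with ⟨k, rfl⟩ | ⟨v, k, rfl⟩
      · exact Or.inl ⟨k + 1, replicate_succ'.symm⟩
      · exact Or.inr ⟨v, k + 1, by rw [replicate_succ', append_assoc (v ++ [a])]⟩

/-- the statement for words with different end letters -/
def Good (w : List Bool) : Prop :=
  ∀ a, ∃ r P, Tz w.length 0 r P ∧ τ a (a :: (w ++ [!a])) = X * δ * P

lemma general (N : ℕ) (ih : ∀ w : List Bool, w.length + 2 ≤ N → Good w) (v : List Bool)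
    (hv : v.length ≤ N) : (∀ a, τ a v = 0) ∨
      ∃ c m l r P, m + 2 = v.length ∧ Tz m l r P ∧ τ c v = X * δ * P := by
  induction hn : v.length using Nat.strong_induction_on generalizing v with
  | _ n ihn =>
  rcases v with _ | ⟨a, v⟩
  · exact Or.inl τ_nil
  rcases eq_nil_or_concat v with rfl | ⟨v, c, rfl⟩
  · exact Or.inl fun c => τ_single c a
  simp only [concat_eq_append, length_cons, length_append, length_nil] at hv hn ⊢
  by_cases h : c = a
  · subst h
    rcases ihn v.length (by omega) v (by omega) rfl with h | ⟨a, m, l, r, P, h1, h2, h3⟩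
    · exact Or.inl fun a => by rw [τ_strip, h, mul_zero]
    · exact Or.inr ⟨a, m + 2, _, _, _, by omega, h2.shift, by rw [τ_strip, h3]; ring⟩
  · obtain rfl : c = !a := by cases a <;> cases c <;> simp_all
    obtain ⟨r, P, h1, h2⟩ := ih v (by omega) a
    exact Or.inr ⟨a, _, 0, r, P, by omega, h1, h2⟩

lemma step (a : Bool) (v : List Bool) (k : ℕ)
    (ih : ∀ w : List Bool, w.length ≤ v.length + 1 → Good w) :
    ∃ r P, Tz (v.length + 1 + (k + 1)) 0 r P ∧
      τ a (a :: ((v ++ [a] ++ replicate (k + 1) (!a)) ++ [!a])) = X * δ * P := by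
  have e0 : a :: ((v ++ [a] ++ replicate (k + 1) (!a)) ++ [!a]) =
      (a :: (v ++ [a])) ++ replicate (k + 1 + 1) (!a) := by
    rw [replicate_succ' (n := k + 1)]; simp
  obtain ⟨r₁, T₁, h1, e1⟩ := ih (v ++ [a]) (by simp) a
  obtain ⟨r₂, N, h2, e2⟩ := ih (a :: v) (by simp) (!a)
  have e3 := τ_both a (!a) (a :: (v ++ [a]))
  rw [Bool.not_not, τ_not] at e2
  simp only [length_append, length_cons, length_nil, cons_append] at h1 h2 e1 e2 e3
  rw [e0, τ_pow, cons_append, e1]
  rcases general (v.length + 2) (fun w hw => ih w (by omega)) (a :: (v ++ [a])) (by simp) with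
    h | ⟨c, m, l, r, P, h3, h4, h5⟩
  · exact ⟨_, _, h1.g_mul (k + 1), by rw [h]; ring⟩
  obtain rfl : m = v.length := by simpa using h3
  have := h4.lr
  have := h4.rn
  by_cases hc : c = a
  · subst hc
    have e4 : T₁ = N + g 2 * P := by
      apply mul_left_cancel₀ Xδ_ne
      rw [g_succ', g_one]
      linear_combination e3 - e1 + e2 + (1 + X) * h5
    have h6 := h2.gap (h4.g_mul 1) (e4 ▸ h1)
    have h7 := h4.g_mul (k + 2)
    rw [show v.length + (k + 2) = v.length + 1 + (k + 1) by ring] at h7
    refine ⟨_, _, (h2.g_mul (k + 1)).add h7 (Nat.zero_le _) (by omega), ?_⟩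
    rw [h5, e4, g_rec (k + 1), g_succ' 1, g_one]
    ring
  · obtain rfl : c = !a := by cases a <;> cases c <;> simp_all
    rw [τ_not] at h5
    have e4 : N = T₁ + g 2 * P := by
      apply mul_left_cancel₀ Xδ_ne
      rw [g_succ', g_one]
      linear_combination -e3 + e1 - e2 + (1 + X) * h5
    have h6 := h1.gap (h4.g_mul 1) (e4 ▸ h2)
    have h7 := (h4.g_mul k).shift
    rw [show v.length + k + 2 = v.length + 1 + (k + 1) by ring] at h7
    refine ⟨_, _, (h1.g_mul (k + 1)).add h7 (Nat.zero_le _) (by omega), ?_⟩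
    linear_combination (X * g (k + 1)) * h5

theorem good (w : List Bool) : Good w := by
  induction hn : w.length using Nat.strong_induction_on generalizing w with
  | _ n ihn =>
  intro a
  induction hc : w.count a using Nat.strong_induction_on generalizing w with
  | _ s ihs =>
  rcases exists_split a w with ⟨k, rfl⟩ | ⟨v, k, rfl⟩
  · refine ⟨_, _, by simpa using Tz.one.g_mul k, ?_⟩
    rw [← replicate_succ', ← singleton_append, τ_pow, τ_single, singleton_append, τ_pair]
    ring
  rcases k with _ | k
  · rw [replicate_zero, append_nil] at *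
    rw [τ_move]
    have := ihs (((!a) :: v).count a) (by subst hc; simp) ((!a) :: v) (by simpa using hn) rfl
    simpa using this
  · have := step a v k fun w hw => ihn w.length (by
      subst hn; simp only [length_append, length_cons, length_nil, length_replicate]; omega) w rfl
    simpa only [length_append, length_cons, length_nil, length_replicate] using this

lemma trace_sorted (a b : ℕ) : (L true ^ (a + 1) * L false ^ (b + 1)).trace =
    X ^ (a + 1) + X ^ (b + 1) + δ * (g (a + 1) * g (b + 1)) := by
  have h1 := g_mul a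
  have h2 := g_mul b
  rw [L_pow, L_pow, g_succ, g_succ]
  simp [L, Matrix.trace_fin_two, δ, Matrix.mul_apply, Fin.sum_univ_two]
  have e1 : (X : ℤ[X]) ^ a = 1 - (1 - X) * g a := by linear_combination h1
  have e2 : (X : ℤ[X]) ^ b = 1 - (1 - X) * g b := by linear_combination h2
  rw [pow_succ, pow_succ, e1, e2]
  ring

lemma pow_comm (a b : ℕ) : L true ^ (a + 1) * L false ^ (b + 1) =
    L false ^ (b + 1) * L true ^ (a + 1) + (g (a + 1) * g (b + 1)) • Cm true := by
  rw [L_pow, L_pow, Cm, Bool.not_true]
  simp only [mul_sub, sub_mul, smul_mul_assoc, mul_smul_comm, mul_one, one_mul]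
  module

theorem trace_ends (w : List Bool) (a b : ℕ) : ∃ r P, Tz (a + w.length + b) 0 r P ∧
    (L true ^ (a + 1) * M w * L false ^ (b + 1)).trace =
      X ^ (a + 1 + w.count true) + X ^ (b + 1 + w.count false) + δ * P := by
  induction hn : w.length using Nat.strong_induction_on generalizing w a b with
  | _ n ihn =>
  subst hn
  rcases eq_nil_or_concat w with rfl | ⟨w, c, rfl⟩
  · refine ⟨_, g (b + 1) * (g (a + 1) * 1), by simpa using (Tz.one.g_mul a).g_mul b, ?_⟩
    rw [M_nil, mul_one, trace_sorted]
    simp [mul_comm]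
  rw [concat_eq_append] at *
  cases c
  · obtain ⟨r, P, h1, h2⟩ := ihn w.length (by simp) w a (b + 1) rfl
    refine ⟨r, P, by convert h1 using 1; simp; ring, ?_⟩
    rw [M_append, M_single, ← mul_assoc, mul_assoc _ (L false), ← pow_succ', h2]
    simp; ring
  rcases exists_split false (w ++ [true]) with ⟨k, hk⟩ | ⟨v, k, hk⟩
  · rw [hk, M_replicate, Bool.not_false, ← pow_add, add_right_comm a 1 k, trace_sorted]
    refine ⟨_, g (b + 1) * (g (a + k + 1) * 1),
      by simpa using (Tz.one.g_mul (a + k)).g_mul b, ?_⟩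
    simp [count_replicate, mul_comm, add_right_comm]
  obtain ⟨k, rfl⟩ : ∃ j, k = j + 1 := by
    rcases k with _ | k
    · simp at hk
    · exact ⟨k, rfl⟩
  rw [hk]
  obtain ⟨r, P, h1, h2⟩ := ihn (v ++ [false]).length (by rw [hk]; simp) (v ++ [false])
    (a + (k + 1)) b rfl
  obtain ⟨r', Q, h3, h4⟩ := good (replicate a true ++ v) true
  have h5 := ((h3.g_mul b).g_mul k).shift
  simp only [length_append, length_replicate, length_cons, length_nil] at h1 h5 ⊢
  rw [show a + v.length + b + k + 2 = a + (k + 1) + (v.length + (0 + 1)) + b by ring] at h5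
  refine ⟨_, _, by convert h1.add h5 (Nat.zero_le _) (by omega) using 1; ring, ?_⟩
  have e1 : M (true :: (replicate a true ++ v ++ [!true])) =
      L true ^ (a + 1) * M (v ++ [false]) := by
    rw [append_assoc, ← cons_append, ← replicate_succ, M_append, M_replicate, Bool.not_true]
  rw [τ, e1] at h4
  rw [M_append _ (replicate _ _), M_replicate, Bool.not_false, ← mul_assoc, mul_assoc _ (_ ^ _),
    pow_comm, mul_add, mul_smul_comm, Matrix.trace_add, Matrix.trace_smul, h4, ← mul_assoc,
    Matrix.trace_mul_comm, ← mul_assoc, ← mul_assoc, ← pow_add,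
    show k + 1 + (a + 1) = a + (k + 1) + 1 by ring, h2]
  simp [count_replicate]
  ring

lemma exists_front (v : List Bool) (h : true ∈ v) : ∃ j u, v = replicate j false ++ true :: u := by
  induction v with
  | nil => simp at h
  | cons c v ih =>
    cases c
    · obtain ⟨j, u, rfl⟩ := ih (by simpa using h)
      exact ⟨j + 1, u, rfl⟩
    · exact ⟨0, v, rfl⟩

theorem trace_main (w : List Bool) (h1 : true ∈ w) (h2 : false ∈ w) :
    ∃ n r P, n + 2 = w.length ∧ Tz n 0 r P ∧
      (M w).trace = X ^ w.count true + X ^ w.count false + δ * P := by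
  have key : ∀ u v : List Bool, (∃ n r P, n + 2 = (v ++ u).length ∧ Tz n 0 r P ∧
      (M (v ++ u)).trace = X ^ (v ++ u).count true + X ^ (v ++ u).count false + δ * P) →
      ∃ n r P, n + 2 = (u ++ v).length ∧ Tz n 0 r P ∧
      (M (u ++ v)).trace = X ^ (u ++ v).count true + X ^ (u ++ v).count false + δ * P := by
    intro u v
    simp only [M_append, length_append, count_append, Matrix.trace_mul_comm (M u),
      add_comm u.length, add_comm (u.count _)]
    exact id
  have ends : ∀ v : List Bool, ∃ n r P, n + 2 = (true :: (v ++ [false])).length ∧ Tz n 0 r P ∧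
      (M (true :: (v ++ [false]))).trace = X ^ (true :: (v ++ [false])).count true +
        X ^ (true :: (v ++ [false])).count false + δ * P := by
    intro v
    obtain ⟨r, P, h3, h4⟩ := trace_ends v 0 0
    refine ⟨_, r, P, by simp, h3, ?_⟩
    rw [M_cons, M_append, M_single, ← mul_assoc]
    simpa [add_comm] using h4
  rcases exists_split false w with ⟨k, rfl⟩ | ⟨v, k, rfl⟩
  · simp at h2
  rcases k with _ | k
  · obtain ⟨j, u, rfl⟩ := exists_front v (by simpa using h1)
    rw [replicate_zero, append_nil, append_assoc]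
    apply key
    have := ends (u ++ replicate j false)
    rw [append_assoc, ← replicate_succ', replicate_succ] at this
    simpa using this
  · apply key
    simpa [replicate_succ] using ends (replicate k true ++ v)

end Pool.Agent.P.MP_95c900_gt
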