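import Pool.Agent.P.MP_95c900_gt.Defs
import Pool.Agent.P.MP_95c900_gt.Words

/-! Fox calculus, the Burau matrices and the first elementary ideal of a closed 3-braid. -/

namespace Pool.Agent.P.MP_95c900_gt

open Polynomial LaurentPolynomial FreeGroup

/-- the variable -/
noncomputable def tt : ℤ[T;T⁻¹] := T 1

/-- the inverse variable -/
noncomputable def ss : ℤ[T;T⁻¹] := T (-1)

section fox
variable {α : Type} [DecidableEq α]

/-- exponent sum -/
def dg : FreeGroup α →* Multiplicative ℤ := FreeGroup.lift fun _ => Multiplicative.ofAdd 1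

/-- the abelianisation -/
noncomputable def ab (a : FreeGroup α) : ℤ[T;T⁻¹] := T (dg a).toAdd

omit [DecidableEq α] in
lemma ab_mul (a b : FreeGroup α) : ab (a * b) = ab a * ab b := by
  rw [ab, ab, ab, _root_.map_mul, toAdd_mul, T_add]

omit [DecidableEq α] in
lemma ab_one : ab (1 : FreeGroup α) = 1 := by simp [ab]

omit [DecidableEq α] in
lemma ab_of (i : α) : ab (of i) = tt := by simp [ab, dg, tt]

omit [DecidableEq α] in
lemma ab_inv_of (i : α) : ab (of i)⁻¹ = ss := by simp [ab, dg, ss]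

lemma TT : (tt * ss : ℤ[T;T⁻¹]) = 1 := by rw [tt, ss, ← T_add]; simp

lemma foxList_append (j : α) (l l' : List (α × Bool)) :
    foxList j (l ++ l') = foxList j l + ab (mk l) * foxList j l' := by
  induction l with
  | nil => simp [foxList, ← one_eq_mk, ab_one]
  | cons s l ih =>
    obtain ⟨i, b⟩ := s
    cases b
    · have : mk ((i, false) :: l) = (of i)⁻¹ * mk l := rfl
      rw [List.cons_append, foxList, foxList, ih, this, ab_mul, ab_inv_of, ss]; ring
    · have : mk ((i, true) :: l) = of i * mk l := rfl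
      rw [List.cons_append, foxList, foxList, ih, this, ab_mul, ab_of, tt]; ring

lemma foxList_red (j : α) {l l' : List (α × Bool)} (h : Red l l') :
    foxList j l = foxList j l' := by
  induction h with
  | refl => rfl
  | tail _ h ih =>
    rw [ih]
    rcases h with @⟨l₁, l₂, x, b⟩
    rw [foxList_append, foxList_append]
    congr 2
    have := TT
    rw [tt, ss] at this
    cases b
    · simp only [foxList, Bool.not_false]
      linear_combination foxList j l₂ * this
    · simp only [foxList, Bool.not_true]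
      linear_combination (foxList j l₂ - if x = j then 1 else 0) * this

lemma fox_mk (j : α) (l : List (α × Bool)) : fox j (mk l) = foxList j l := by
  rw [fox, toWord_mk, ← foxList_red j reduce.red]

lemma fox_mul (j : α) (a b : FreeGroup α) : fox j (a * b) = fox j a + ab a * fox j b := by
  obtain ⟨a⟩ := a
  obtain ⟨b⟩ := b
  change fox j (mk a * mk b) = fox j (mk a) + ab (mk a) * fox j (mk b)
  rw [mul_mk, fox_mk, fox_mk, fox_mk, foxList_append]

lemma fox_one (j : α) : fox j (1 : FreeGroup α) = 0 := by rw [one_eq_mk, fox_mk, foxList]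

lemma fox_of (j i : α) : fox j (of i) = if i = j then 1 else 0 := by
  rw [of, fox_mk]; simp [foxList]

lemma fox_inv (j : α) (a : FreeGroup α) : fox j a⁻¹ = -(ab a⁻¹ * fox j a) := by
  have := fox_mul j a⁻¹ a
  rw [inv_mul_cancel, fox_one] at this
  linear_combination -this

lemma fox_comp [Fintype α] (φ : FreeGroup α →* FreeGroup α) (hφ : ∀ a, ab (φ a) = ab a) (j : α)
    (a : FreeGroup α) : fox j (φ a) = ∑ k, fox k a * fox j (φ (of k)) := by
  induction a with
  | C1 => simp [fox_one]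
  | of x => simp [fox_of]
  | inv_of x _ =>
    rw [_root_.map_inv, fox_inv, ← _root_.map_inv, hφ]
    simp [fox_inv, fox_of]
  | mul a b h1 h2 =>
    simp only [_root_.map_mul, fox_mul, h1, h2, hφ, add_mul, Finset.sum_add_distrib, Finset.mul_sum,
      mul_assoc]

end fox

lemma ab_artin {n : ℕ} (s : Fin n × Bool) (a : FreeGroup (Fin (n + 1))) :
    ab (artin s a) = ab a := by
  have : dg.comp (artin s) = dg := by
    ext j
    simp only [artin, MonoidHom.comp_apply, lift_apply_of]
    split_ifs <;> simp [dg]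
  rw [ab, ab, ← MonoidHom.comp_apply, this]

lemma ab_braidAct {n : ℕ} (β : List (Fin n × Bool)) (a : FreeGroup (Fin (n + 1))) :
    ab (braidAct β a) = ab a := by
  induction β generalizing a with
  | nil => rfl
  | cons s w ih => rw [braidAct, MonoidHom.comp_apply, ih, ab_artin]

/-- the unreduced Burau matrix -/
noncomputable def burau {n : ℕ} (β : List (Fin n × Bool)) :
    Matrix (Fin (n + 1)) (Fin (n + 1)) ℤ[T;T⁻¹] := fun i j => fox j (braidAct β (of i))

lemma burau_nil {n : ℕ} : burau ([] : List (Fin n × Bool)) = 1 := by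
  ext i j : 1
  simp [burau, braidAct, fox_of, Matrix.one_apply]

lemma burau_cons {n : ℕ} (s : Fin n × Bool) (β : List (Fin n × Bool)) :
    burau (s :: β) = burau [s] * burau β := by
  ext i j : 1
  exact fox_comp (braidAct β) (ab_braidAct β) j _

lemma alexMatrix_eq {n : ℕ} (β : List (Fin n × Bool)) : alexMatrix β = burau β - 1 := by
  ext i j : 1
  rw [alexMatrix, fox_mul, fox_inv, ab_braidAct, ab_of, ab_inv_of, fox_of, Matrix.sub_apply,
    Matrix.one_apply, burau]
  linear_combination (-if i = j then 1 else 0) * TT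

/-- the letters of alternating 3-braids -/
def letter (ε a : Bool) : Fin 2 × Bool := (if a = ε then 0 else 1, a)

/-- the Burau matrices of the letters -/
noncomputable def Bm (ε a : Bool) : Matrix (Fin 3) (Fin 3) ℤ[T;T⁻¹] :=
  if ε then (if a then !![1 - tt, tt, 0; 1, 0, 0; 0, 0, 1] else !![1, 0, 0; 0, 0, 1; 0, ss, 1 - ss])
  else (if a then !![1, 0, 0; 0, 1 - tt, tt; 0, 1, 0] else !![0, 1, 0; ss, 1 - ss, 0; 0, 0, 1])

lemma burau_letter (ε a : Bool) : burau [letter ε a] = Bm ε a := by
  ext i j : 1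
  cases ε <;> cases a <;> fin_cases i <;> fin_cases j <;>
    simp [burau, braidAct, letter, Bm, artin, fox_mul, fox_inv, fox_of, ab_of, ab_inv_of,
      mul_comm ss, TT, sub_eq_add_neg, add_comm, mul_assoc]

/-- the substitution `X ↦ -t` -/
noncomputable def sub : ℤ[X] →+* ℤ[T;T⁻¹] := toLaurent.comp (compRingHom (-X))

lemma sub_X : sub X = -tt := by simp [sub, tt]

/-- differences of coordinates -/
noncomputable def Pm (ε : Bool) : Matrix (Fin 2) (Fin 3) ℤ[T;T⁻¹] :=
  if ε then !![1, -1, 0; 0, 1, -1] else !![0, tt, -tt; 1, -1, 0]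

lemma Bm_one (ε a : Bool) : (Bm ε a).mulVec ![1, 1, 1] = ![1, 1, 1] := by
  ext i : 1
  cases ε <;> cases a <;> fin_cases i <;> simp [Bm, Matrix.mulVec, dotProduct, Fin.sum_univ_three]

lemma Bm_vec (ε a : Bool) : Matrix.vecMul ![1, tt, tt ^ 2] (Bm ε a) = ![1, tt, tt ^ 2] := by
  ext i : 1
  cases ε <;> cases a <;> fin_cases i <;>
    simp [Bm, Matrix.vecMul, dotProduct, Fin.sum_univ_three, sq, mul_assoc, TT, mul_sub]

lemma Bm_red (ε a : Bool) :
    (if a then 1 else -tt) • (Pm ε * Bm ε a) = (L a).map sub * Pm ε := by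
  ext i j : 1
  cases ε <;> cases a <;> fin_cases i <;> fin_cases j <;>
    simp [Bm, Pm, L, sub_X, Matrix.mul_apply, Fin.sum_univ_two, TT, mul_sub,
      mul_add] <;> ring

lemma burau_inv (ε : Bool) (w : List Bool) :
    (burau (w.map (letter ε))).mulVec ![1, 1, 1] = ![1, 1, 1] ∧
    Matrix.vecMul ![1, tt, tt ^ 2] (burau (w.map (letter ε))) = ![1, tt, tt ^ 2] ∧
    (-tt : ℤ[T;T⁻¹]) ^ w.count false • (Pm ε * burau (w.map (letter ε))) =
      (M w).map sub * Pm ε := by
  induction w with
  | nil => simp [burau_nil, M_nil]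
  | cons a w ih =>
    obtain ⟨h1, h2, h3⟩ := ih
    rw [List.map_cons, burau_cons, ← Matrix.mulVec_mulVec, h1, ← Matrix.vecMul_vecMul, M_cons,
      Matrix.map_mul, Matrix.mul_assoc, ← h3, ← Matrix.mul_assoc, Matrix.mul_smul,
      ← Matrix.mul_assoc, burau_letter, Bm_one, Bm_vec, h2, ← Bm_red, Matrix.smul_mul, smul_smul]
    refine ⟨rfl, rfl, ?_⟩
    cases a <;> simp [pow_succ]

lemma det_M (w : List Bool) : (M w).det = X ^ w.length := by
  induction w with
  | nil => simp [M_nil]
  | cons a w ih =>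
    rw [M_cons, Matrix.det_mul, ih, List.length_cons, pow_succ']
    cases a <;> simp [L]

lemma span_minors {R : Type} [CommRing R] (N : Matrix (Fin 3) (Fin 3) R) (t : R)
    (h1 : N.mulVec ![1, 1, 1] = 0) (h2 : Matrix.vecMul ![1, t, t ^ 2] N = 0) :
    Ideal.span {d | ∃ i j : Fin 3, d = (N.submatrix i.succAbove j.succAbove).det} =
      Ideal.span {N 1 1 * N 2 2 - N 1 2 * N 2 1} := by
  have r1 := congrFun h1 1
  have r2 := congrFun h1 2
  have c0 := congrFun h2 0
  have c1 := congrFun h2 1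
  have c2 := congrFun h2 2
  simp [Matrix.mulVec, Matrix.vecMul, dotProduct, Fin.sum_univ_three] at r1 r2 c0 c1 c2
  have e1 : N 1 0 = -N 1 1 - N 1 2 := by linear_combination r1
  have e2 : N 2 0 = -N 2 1 - N 2 2 := by linear_combination r2
  have e3 : N 0 0 = -t * N 1 0 - t ^ 2 * N 2 0 := by linear_combination c0
  have e4 : N 0 1 = -t * N 1 1 - t ^ 2 * N 2 1 := by linear_combination c1
  have e5 : N 0 2 = -t * N 1 2 - t ^ 2 * N 2 2 := by linear_combination c2
  apply le_antisymm
  · rw [Ideal.span_le]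
    rintro _ ⟨i, j, rfl⟩
    rw [SetLike.mem_coe, Ideal.mem_span_singleton']
    refine ⟨(-1) ^ (i.val + j.val) * t ^ i.val, ?_⟩
    fin_cases i <;> fin_cases j <;> simp [Matrix.det_fin_two, Fin.succAbove, e3, e4, e5, e1, e2] <;>
      ring
  · rw [Ideal.span_le, Set.singleton_subset_iff]
    exact Ideal.subset_span ⟨0, 0, by simp [Matrix.det_fin_two]⟩

lemma minor_eq (ε : Bool) (w : List Bool) {P : ℤ[X]}
    (h : (M w).trace = X ^ w.count true + X ^ w.count false + δ * P) :
    Ideal.span {d | ∃ i j : Fin 3,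
      d = ((alexMatrix (w.map (letter ε))).submatrix i.succAbove j.succAbove).det} =
      Ideal.span {sub P} := by
  obtain ⟨h1, h2, h3⟩ := burau_inv ε w
  have h4 := congrArg sub (det_M w)
  have h5 := congrArg sub h
  rw [alexMatrix_eq]
  generalize burau (w.map (letter ε)) = B at *
  rw [span_minors (B - 1) (tt) (by rw [Matrix.sub_mulVec, h1]; simp)
    (by rw [Matrix.vecMul_sub, h2]; simp)]
  have hu : IsUnit ((-tt : ℤ[T;T⁻¹]) ^ w.count false) := (show IsUnit tt from isUnit_T 1).neg.pow _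
  rw [← Ideal.span_singleton_mul_left_unit hu, ← Ideal.span_singleton_neg (sub P)]
  congr 2
  have hδ : (1 + tt + tt ^ 2 : ℤ[T;T⁻¹]) ≠ 0 := by
    have : (1 + tt + tt ^ 2 : ℤ[T;T⁻¹]) = toLaurent (1 + X + X ^ 2) := by simp [tt]
    rw [this, toLaurent_ne_zero]
    intro h0
    simpa using congrArg (eval 0) h0
  apply mul_left_cancel₀ (mul_ne_zero hu.ne_zero hδ)
  have r1 := congrFun h1 1
  have r2 := congrFun h1 2
  have c0 := congrFun h2 0
  have c2 := congrFun h2 2
  have m00 := congrFun (congrFun h3 0) 0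
  have m02 := congrFun (congrFun h3 0) 2
  have m10 := congrFun (congrFun h3 1) 0
  have m12 := congrFun (congrFun h3 1) 2
  rw [← List.count_true_add_count_false w, pow_add] at h4
  simp [Matrix.mulVec, Matrix.vecMul, dotProduct, Fin.sum_univ_three,
    Matrix.det_fin_two, Matrix.trace_fin_two, sub_X, δ] at r1 r2 c0 c2 h4 h5 ⊢
  have e1 : B 1 0 = 1 - B 1 1 - B 1 2 := by linear_combination r1
  have e2 : B 2 0 = 1 - B 2 1 - B 2 2 := by linear_combination r2
  have e3 : B 0 0 = 1 - tt * B 1 0 - tt ^ 2 * B 2 0 := by linear_combination c0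
  have e5 : B 0 2 = tt ^ 2 - tt * B 1 2 - tt ^ 2 * B 2 2 := by linear_combination c2
  cases ε
  · simp [Fin.sum_univ_three, Fin.sum_univ_two, Pm, Matrix.mul_apply, e5, e3, e1, e2,
      Matrix.vecMul, dotProduct] at m00 m02 m10 m12
    have a0 : sub (M w 0 0) = (-tt) ^ List.count false w * (B 2 2 - B 1 2) := by
      apply mul_left_cancel₀ (show IsUnit tt from isUnit_T 1).ne_zero
      linear_combination m02
    have a1 : tt * sub (M w 1 0) =
        (-tt) ^ List.count false w * (B 1 2 + tt * B 1 2 + tt ^ 2 * B 2 2 - tt ^ 2) := by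
      linear_combination m12
    rw [a0, ← m10] at h4 h5
    rw [← m00] at h4
    linear_combination h4 - (-tt) ^ List.count false w * h5 + (-tt) ^ List.count false w *
      (B 2 1 + B 2 2 - B 1 1 - B 1 2) * a1
  · simp [Fin.sum_univ_three, Fin.sum_univ_two, Pm, Matrix.mul_apply, e5, e3, e1, e2,
      Matrix.vecMul, dotProduct] at m00 m02 m10 m12
    rw [← neg_eq_iff_eq_neg] at m02 m12
    rw [← m00, ← m12] at h4 h5
    rw [← m02, ← m10] at h4
    linear_combination h4 - (-tt) ^ List.count false w * h5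

lemma unique {Δ Δ' : ℤ[X]} (h : Ideal.span {toLaurent Δ} = Ideal.span {toLaurent Δ'})
    (h0 : Δ.coeff 0 ≠ 0) (h0' : Δ'.coeff 0 ≠ 0) (h1 : 0 < Δ.leadingCoeff)
    (h1' : 0 < Δ'.leadingCoeff) : Δ = Δ' := by
  have key : ∀ {A B : ℤ[X]}, toLaurent A ∣ toLaurent B → A.coeff 0 ≠ 0 → A ∣ B := by
    rintro A B ⟨c, hc⟩ hA
    obtain ⟨k, c', hc'⟩ := exists_T_pow c
    have h2 : X ^ k * B = A * c' := by
      apply toLaurent_injective
      rw [_root_.map_mul, _root_.map_mul, hc', hc, toLaurent_X_pow]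
      ring
    obtain ⟨e, rfl⟩ := prime_X.pow_dvd_of_dvd_mul_left k (by rwa [X_dvd_iff]) ⟨B, h2.symm⟩
    exact ⟨e, mul_left_cancel₀ (pow_ne_zero k X_ne_zero) (by rw [h2]; ring)⟩
  have ha := Ideal.span_singleton_eq_span_singleton.1 h
  obtain ⟨u, rfl⟩ := associated_of_dvd_dvd (key ha.dvd h0) (key ha.symm.dvd h0')
  obtain ⟨r, hr, hu⟩ := Polynomial.isUnit_iff.1 u.isUnit
  rw [← hu] at h1' ⊢
  rcases Int.isUnit_iff.1 hr with rfl | rfl
  · simp
  · simp at h1'
    omega

lemma trap_of_tz {n r : ℕ} {P : ℤ[X]} (h : Tz n 0 r P) :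
    ∃ Δ : ℤ[X], Ideal.span {sub P} = Ideal.span {toLaurent Δ} ∧ Δ.coeff 0 ≠ 0 ∧
      0 < Δ.leadingCoeff ∧ Trapezoidal Δ := by
  have hc : ∀ j, (Polynomial.C ((-1) ^ n) * P.comp (-X)).coeff j = (-1) ^ (n + j) * P.coeff j := by
    intro j
    rw [coeff_C_mul, show (-X : ℤ[X]) = Polynomial.C (-1) * X by simp, comp_C_mul_X_coeff]
    ring
  have h0 : 0 < P.coeff 0 := by simpa [dd_zero] using h.pos 0 le_rfl (Nat.zero_le _)
  have hn : P.coeff n = P.coeff 0 := h.coeff_sym rfl
  have hd : (Polynomial.C ((-1) ^ n) * P.comp (-X)).natDegree = n := by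
    apply natDegree_eq_of_le_of_coeff_ne_zero
    · refine natDegree_le_iff_coeff_eq_zero.2 fun j hj => ?_
      rw [hc, coeff_eq_zero_of_natDegree_lt (h.deg.trans_lt hj), mul_zero]
    · rw [hc, hn]
      exact mul_ne_zero (pow_ne_zero _ (by norm_num)) h0.ne'
  have ha : ∀ j ≤ n, absCoeff (Polynomial.C ((-1) ^ n) * P.comp (-X)) j = P.coeff j := by
    intro j hj
    rw [absCoeff, hd, hc, ← mul_assoc, ← pow_add, show j + (n + (n - j)) = 2 * n by omega, pow_mul,
      h.coeff_sym (i := n - j) (j := j) (by omega)]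
    simp
  have hr := h.rn
  have half : ∀ j, 2 * j ≤ n → 0 < P.coeff j ∧ (r ≤ j → P.coeff j = P.coeff r) := by
    intro j
    induction j with
    | zero => exact fun _ => ⟨h0, fun h1 => by rw [Nat.le_zero.1 h1]⟩
    | succ j ih =>
      intro hj
      obtain ⟨h1, h2⟩ := ih (by omega)
      have h3 := h.nonneg hj
      rw [dd_succ] at h3
      refine ⟨by omega, fun h4 => ?_⟩
      rcases h4.eq_or_lt with rfl | h4
      · rfl
      · have := h.zero _ hj (Or.inr h4)
        rw [dd_succ, h2 (by omega)] at this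
        omega
  have inc : ∀ j < r, P.coeff j < P.coeff (j + 1) := by
    intro j hj
    have := h.pos (j + 1) (Nat.zero_le _) hj
    rw [dd_succ] at this
    omega
  refine ⟨Polynomial.C ((-1) ^ n) * P.comp (-X), ?_, ?_, ?_, ?_, r, ?_, ?_, ?_, ?_⟩
  · rw [_root_.map_mul, Ideal.span_singleton_mul_left_unit]
    · rfl
    · exact ((isUnit_one.neg.pow n).map Polynomial.C).map toLaurent
  · rw [hc]
    exact mul_ne_zero (pow_ne_zero _ (by norm_num)) h0.ne'
  · rw [leadingCoeff, hd, hc, hn, ← two_mul, pow_mul]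
    simpa using h0
  · rw [hd]
    intro j hj
    rw [ha j hj]
    rcases le_total (2 * j) n with h1 | h1
    · exact (half j h1).1
    · rw [h.coeff_sym (i := j) (j := n - j) (by omega)]
      exact (half _ (by omega)).1
  · rwa [hd]
  · intro j hj
    rw [ha j (by omega), ha _ (by omega)]
    exact inc j hj
  · rw [hd]
    intro j h1 h2
    rw [ha j (by omega), ha _ (by omega)]
    rcases le_total (2 * j) n with h3 | h3
    · exact (half j h3).2 h1
    · rw [h.coeff_sym (i := j) (j := n - j) (by omega)]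
      exact (half _ (by omega)).2 (by omega)
  · rw [hd]
    intro j h1 h2
    rw [ha j (by omega), ha _ (by omega), h.coeff_sym (i := j + 1) (j := n - (j + 1)) (by omega),
      h.coeff_sym (i := j) (j := n - (j + 1) + 1) (by omega)]
    exact inc _ (by omega)

theorem main (ε : Bool) (w : List Bool) (h1 : true ∈ w) (h2 : false ∈ w) :
    (∃ Δ, IsAlexander (w.map (letter ε)) Δ) ∧
      ∀ Δ, IsAlexander (w.map (letter ε)) Δ → Trapezoidal Δ := by
  obtain ⟨n, r, P, -, h3, h4⟩ := trace_main w h1 h2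
  obtain ⟨Δ, h5, h6, h7, h8⟩ := trap_of_tz h3
  have h9 := (minor_eq ε w h4).trans h5
  refine ⟨⟨Δ, h9, h6, h7⟩, fun Δ' h => ?_⟩
  rwa [← unique (h9.symm.trans h.1) h6 h.2.1 h7 h.2.2]

end Pool.Agent.P.MP_95c900_gt
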