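import Mathlib

/-! Symmetric polynomials whose first differences are positive exactly on an interval. -/

namespace Pool.Agent.P.MP_95c900_gt

open Polynomial

/-- `1 + X + ... + X ^ (k - 1)` -/
noncomputable def g (k : ℕ) : ℤ[X] := ∑ i ∈ Finset.range k, X ^ i

lemma g_succ (k : ℕ) : g (k + 1) = g k + X ^ k := Finset.sum_range_succ _ _

lemma g_succ' (k : ℕ) : g (k + 1) = X * g k + 1 := geom_sum_succ

lemma g_zero : g 0 = 0 := by simp [g]

lemma g_one : g 1 = 1 := by simp [g]

lemma g_mul (k : ℕ) : (1 - X) * g k = 1 - X ^ k := mul_neg_geom_sum X k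

lemma g_rec (k : ℕ) : g (k + 2) = (1 + X) * g (k + 1) - X * g k := by
  rw [g_succ' (k + 1), g_succ' k]
  have := g_mul k
  rw [show g k = g (k + 1) - X ^ k by rw [g_succ]; ring, g_succ'] at this
  linear_combination (exp := 1) 0 * this

/-- first differences of the coefficients -/
noncomputable def dd (P : ℤ[X]) (j : ℕ) : ℤ := ((1 - X) * P).coeff j

lemma dd_zero (P : ℤ[X]) : dd P 0 = P.coeff 0 := by simp [dd, sub_mul]

lemma dd_succ (P : ℤ[X]) (j : ℕ) : dd P (j + 1) = P.coeff (j + 1) - P.coeff j := by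
  simp [dd, sub_mul, coeff_X_mul]

lemma dd_add (P Q : ℤ[X]) (j : ℕ) : dd (P + Q) j = dd P j + dd Q j := by
  simp [dd, mul_add]

/-- `P` is symmetric of formal degree `n`, and in the first half its first differences are positive
on `[l, r]` and zero elsewhere -/
structure Tz (n l r : ℕ) (P : ℤ[X]) : Prop where
  deg : P.natDegree ≤ n
  sym : reflect n P = P
  pos : ∀ j, l ≤ j → j ≤ r → 0 < dd P j
  zero : ∀ j, 2 * j ≤ n → j < l ∨ r < j → dd P j = 0
  lr : l ≤ r
  rn : 2 * r ≤ n

namespace Tz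
variable {n l r l' r' r'' : ℕ} {P Q : ℤ[X]}

lemma nonneg (h : Tz n l r P) {j : ℕ} (hj : 2 * j ≤ n) : 0 ≤ dd P j := by
  by_cases h1 : j < l ∨ r < j
  · exact (h.zero j hj h1).ge
  · exact (h.pos j (by omega) (by omega)).le

lemma coeff_sym (h : Tz n l r P) {i j : ℕ} (hij : i + j = n) : P.coeff i = P.coeff j := by
  conv_lhs => rw [← h.sym, coeff_reflect, revAt_le (by omega), show n - i = j by omega]

lemma add (h : Tz n l r P) (h' : Tz n l' r' Q) (h1 : l ≤ l') (h2 : l' ≤ r + 1) :
    Tz n l (max r r') (P + Q) where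
  deg := (natDegree_add_le _ _).trans (max_le h.deg h'.deg)
  sym := by rw [reflect_add, h.sym, h'.sym]
  pos := by
    intro j h3 h4
    have := h.rn
    have := h'.rn
    rw [dd_add]
    by_cases h5 : j ≤ r
    · exact add_pos_of_pos_of_nonneg (h.pos j h3 h5) (h'.nonneg (by omega))
    · exact add_pos_of_nonneg_of_pos (h.nonneg (by omega)) (h'.pos j (by omega) (by omega))
  zero := by
    intro j h3 h4
    rw [dd_add, h.zero j h3 (by omega), h'.zero j h3 (by omega), add_zero]
  lr := by have := h.lr; omega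
  rn := by have := h.rn; have := h'.rn; omega

lemma gap (h : Tz n 0 r P) (h' : Tz n l' r' Q) (h'' : Tz n 0 r'' (P + Q)) : l' ≤ r + 1 := by
  by_contra hlt
  have := h'.lr
  have := h'.rn
  have h1 : dd (P + Q) (r + 1) = 0 := by
    rw [dd_add, h.zero _ (by omega) (by omega), h'.zero _ (by omega) (by omega), add_zero]
  have h2 : 0 < dd (P + Q) l' := by
    rw [dd_add]
    exact add_pos_of_nonneg_of_pos (h.nonneg (by omega)) (h'.pos _ le_rfl h'.lr)
  by_cases h3 : r'' < l'
  · exact h2.ne' (h''.zero _ (by omega) (Or.inr h3))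
  · exact (h''.pos _ (Nat.zero_le _) (by omega)).ne' h1

lemma shift (h : Tz n l r P) : Tz (n + 2) (l + 1) (r + 1) (X * P) := by
  have key : ∀ j, dd (X * P) (j + 1) = dd P j := by
    intro j
    rw [dd, dd, mul_left_comm, coeff_X_mul]
  refine ⟨natDegree_mul_le.trans (by have := h.deg; have := natDegree_X_le (R := ℤ); omega), ?_,
    fun j h1 h2 => ?_, fun j h1 h2 => ?_, by have := h.lr; omega, by have := h.rn; omega⟩
  · rw [add_comm, reflect_mul _ _ (natDegree_X_le.trans one_le_two) h.deg, h.sym]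
    congr 1
    rw [← pow_one X, reflect_monomial]
    rfl
  · obtain ⟨j, rfl⟩ : ∃ i, j = i + 1 := ⟨j - 1, by omega⟩
    rw [key]
    exact h.pos j (by omega) (by omega)
  · rcases j with _ | j
    · simp [dd_zero]
    · rw [key]
      exact h.zero j (by omega) (by omega)

lemma coeff_eq_sum (P : ℤ[X]) (j : ℕ) : P.coeff j = ∑ i ∈ Finset.range (j + 1), dd P i := by
  induction j with
  | zero => simp [dd_zero]
  | succ j ih => rw [Finset.sum_range_succ, ← ih, dd_succ]; ring

lemma sum_pos (h : Tz n l r P) {a b : ℕ} (hb : 2 * b ≤ n) (h1 : a ≤ b) (h2 : a ≤ r) (h3 : l ≤ b) :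
    0 < ∑ i ∈ Finset.Ico a (b + 1), dd P i := by
  have := h.lr
  refine Finset.sum_pos' (fun i hi => h.nonneg ?_) ⟨max a l, ?_, h.pos _ (by omega) (by omega)⟩
  · have := Finset.mem_Ico.1 hi; omega
  · rw [Finset.mem_Ico]; omega

lemma sum_zero (h : Tz n l r P) {a b : ℕ} (hb : 2 * b ≤ n) (h1 : r < a ∨ b < l) :
    ∑ i ∈ Finset.Ico a (b + 1), dd P i = 0 := by
  refine Finset.sum_eq_zero fun i hi => h.zero i ?_ ?_ <;>
  · have := Finset.mem_Ico.1 hi; omega

lemma dd_g_mul (h : Tz n l r P) (k j : ℕ) (hj : 2 * j ≤ n + k) (hn : j ≤ n) :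
    dd (g (k + 1) * P) j = ∑ i ∈ Finset.Ico (j - k) (min j (n - j) + 1), dd P i := by
  have e1 : P.coeff j = P.coeff (min j (n - j)) := by
    rcases le_total j (n - j) with h1 | h1
    · rw [min_eq_left h1]
    · rw [min_eq_right h1]; exact h.coeff_sym (by omega)
  rw [dd, ← mul_assoc, g_mul, sub_mul, one_mul, coeff_sub, coeff_X_pow_mul', e1,
    Finset.sum_Ico_eq_sub _ (by omega), ← coeff_eq_sum]
  congr 1
  split_ifs with h1
  · rw [coeff_eq_sum, show j - (k + 1) + 1 = j - k by omega]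
  · rw [show j - k = 0 by omega, Finset.range_zero, Finset.sum_empty]

lemma g_sym (k : ℕ) : (g (k + 1)).natDegree ≤ k ∧ reflect k (g (k + 1)) = g (k + 1) := by
  have hc : ∀ j, (g (k + 1)).coeff j = if j ≤ k then 1 else 0 := by
    intro j
    simp [g, coeff_X_pow]
  refine ⟨natDegree_le_iff_coeff_eq_zero.2 fun j hj => by rw [hc, if_neg (by omega)], ?_⟩
  ext j
  rw [coeff_reflect, hc, hc]
  by_cases h : j ≤ k
  · rw [revAt_le h, if_pos h, if_pos (by omega)]
  · rw [revAt_eq_self_of_lt (by omega)]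

lemma g_mul (h : Tz n l r P) (k : ℕ) :
    Tz (n + k) l (min (r + k) (min (n - l) ((n + k) / 2))) (g (k + 1) * P) := by
  have := h.lr
  have := h.rn
  refine ⟨natDegree_mul_le.trans (by have := h.deg; have := (g_sym k).1; omega), ?_,
    fun j h1 h2 => ?_, fun j h1 h2 => ?_, by omega, by omega⟩
  · rw [add_comm, reflect_mul _ _ (g_sym k).1 h.deg, h.sym, (g_sym k).2]
  · rw [h.dd_g_mul k j (by omega) (by omega)]
    exact h.sum_pos (by omega) (by omega) (by omega) (by omega)
  · by_cases hn : j ≤ n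
    · rw [h.dd_g_mul k j h1 hn]
      exact h.sum_zero (by omega) (by omega)
    · rw [dd, ← mul_assoc, Pool.Agent.P.MP_95c900_gt.g_mul, sub_mul, one_mul, coeff_sub,
        coeff_X_pow_mul', if_neg (by omega), coeff_eq_zero_of_natDegree_lt (by have := h.deg; omega),
        sub_zero]

lemma one : Tz 0 0 0 1 :=
  ⟨by simp, by simp, fun j _ h => by simp [Nat.le_zero.1 h, dd_zero],
    fun j _ h => by omega, le_rfl, le_rfl⟩

end Tz

end Pool.Agent.P.MP_95c900_gt
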